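import Mathlib

/-! The matroid intersection theorem for rank functions. -/

set_option autoImplicit false

namespace Q191.Simul

/-- a (matroid type) rank function -/
structure RankFn {α : Type*} [DecidableEq α] (r : Finset α → ℕ) : Prop where
  mono : ∀ {S T : Finset α}, S ⊆ T → r S ≤ r T
  card_le : ∀ S : Finset α, r S ≤ S.card
  submod : ∀ S T : Finset α, r (S ∪ T) + r (S ∩ T) ≤ r S + r T

variable {α : Type*} [DecidableEq α]

theorem RankFn.insert_le {r : Finset α → ℕ} (h : RankFn r) (S : Finset α) (e : α) :
    r (insert e S) ≤ r S + r {e} := by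
  have := h.submod S {e}
  rw [Finset.union_comm, ← Finset.insert_eq] at this
  omega

theorem RankFn.contract {r : Finset α → ℕ} (h : RankFn r) {e : α} (he : r {e} = 1) :
    RankFn (fun S => r (insert e S) - 1) := by
  have hpos : ∀ S : Finset α, 1 ≤ r (insert e S) := fun S => by
    rw [← he]
    exact h.mono (Finset.singleton_subset_iff.2 (Finset.mem_insert_self _ _))
  refine ⟨fun {S T} hST => ?_, fun S => ?_, fun S T => ?_⟩
  · have := h.mono (Finset.insert_subset_insert e hST)
    show r (insert e S) - 1 ≤ r (insert e T) - 1
    omega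
  · have := h.card_le (insert e S)
    have := Finset.card_insert_le e S
    show r (insert e S) - 1 ≤ _
    omega
  · have h1 := h.submod (insert e S) (insert e T)
    have e1 : insert e S ∪ insert e T = insert e (S ∪ T) := by
      ext x; simp only [Finset.mem_union, Finset.mem_insert]; tauto
    have e2 : insert e S ∩ insert e T = insert e (S ∩ T) := by
      ext x; simp only [Finset.mem_inter, Finset.mem_insert]; tauto
    rw [e1, e2] at h1
    have p1 := hpos S
    have p2 := hpos T
    have p3 := hpos (S ∪ T)
    have p4 := hpos (S ∩ T)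
    show (r (insert e (S ∪ T)) - 1) + (r (insert e (S ∩ T)) - 1) ≤
      (r (insert e S) - 1) + (r (insert e T) - 1)
    omega

/-- Edmonds' matroid intersection theorem -/
theorem intersection (E : Finset α) : ∀ (k : ℕ) (r₁ r₂ : Finset α → ℕ), RankFn r₁ → RankFn r₂ →
    (∀ S ⊆ E, k ≤ r₁ S + r₂ (E \ S)) → ∃ I ⊆ E, I.card = k ∧ r₁ I = k ∧ r₂ I = k := by
  induction E using Finset.induction_on with
  | empty =>
    intro k r₁ r₂ h₁ h₂ h
    have a := h ∅ (Finset.Subset.refl _)
    have b := h₁.card_le ∅
    have c := h₂.card_le (∅ \ ∅)
    simp only [Finset.sdiff_self, Finset.card_empty] at a b c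
    have hk : k = 0 := by omega
    subst hk
    exact ⟨∅, Finset.Subset.refl _, rfl, by omega, by omega⟩
  | insert e E' he ih =>
    intro k r₁ r₂ h₁ h₂ h
    by_cases hdel : ∀ S ⊆ E', k ≤ r₁ S + r₂ (E' \ S)
    · obtain ⟨I, hI, h3⟩ := ih k r₁ r₂ h₁ h₂ hdel
      exact ⟨I, hI.trans (Finset.subset_insert _ _), h3⟩
    push Not at hdel
    obtain ⟨A, hA, hlt⟩ := hdel
    have heA : e ∉ A := fun hh => he (hA hh)
    have s1 : insert e E' \ insert e A = E' \ A := by
      ext x; simp only [Finset.mem_sdiff, Finset.mem_insert]
      constructor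
      · rintro ⟨a, b⟩; exact ⟨by tauto, by tauto⟩
      · rintro ⟨a, b⟩
        refine ⟨Or.inr a, ?_⟩
        rintro (rfl | c)
        · exact he a
        · exact b c
    have s2 : insert e E' \ A = insert e (E' \ A) := by
      ext x; simp only [Finset.mem_sdiff, Finset.mem_insert]
      constructor
      · tauto
      · rintro (rfl | c)
        · exact ⟨Or.inl rfl, heA⟩
        · tauto
    have l1 : r₁ {e} = 1 := by
      have a := h₁.card_le {e}
      rw [Finset.card_singleton] at a
      have b := h₁.insert_le A e
      have c := h (insert e A) (Finset.insert_subset_insert _ hA)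
      rw [s1] at c
      omega
    have l2 : r₂ {e} = 1 := by
      have a := h₂.card_le {e}
      rw [Finset.card_singleton] at a
      have b := h₂.insert_le (E' \ A) e
      have c := h A (hA.trans (Finset.subset_insert _ _))
      rw [s2] at c
      omega
    obtain ⟨I, hI, hc, hr1, hr2⟩ := ih (k - 1) _ _ (h₁.contract l1) (h₂.contract l2) (by
      intro B hB
      by_contra hlt2
      push Not at hlt2
      have heB : e ∉ B := fun hh => he (hB hh)
      have m1 := h₁.submod A (insert e B)
      have m2 := h₂.submod (E' \ A) (insert e (E' \ B))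
      have e1 : A ∪ insert e B = insert e (A ∪ B) := by
        ext x; simp only [Finset.mem_union, Finset.mem_insert]; tauto
      have e2 : A ∩ insert e B = A ∩ B := by
        ext x; simp only [Finset.mem_inter, Finset.mem_insert]
        constructor
        · rintro ⟨a, rfl | b⟩
          · exact absurd a heA
          · exact ⟨a, b⟩
        · tauto
      have e3 : (E' \ A) ∪ insert e (E' \ B) = insert e E' \ (A ∩ B) := by
        ext x; simp only [Finset.mem_union, Finset.mem_insert, Finset.mem_sdiff, Finset.mem_inter]
        constructor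
        · rintro (⟨a, b⟩ | rfl | ⟨a, b⟩)
          · tauto
          · exact ⟨Or.inl rfl, fun hh => heA hh.1⟩
          · tauto
        · rintro ⟨rfl | a, b⟩
          · tauto
          · by_cases hxA : x ∈ A
            · right; right; exact ⟨a, fun hh => b ⟨hxA, hh⟩⟩
            · left; exact ⟨a, hxA⟩
      have e4 : (E' \ A) ∩ insert e (E' \ B) = insert e E' \ insert e (A ∪ B) := by
        ext x; simp only [Finset.mem_union, Finset.mem_insert, Finset.mem_sdiff, Finset.mem_inter]
        constructor
        · rintro ⟨⟨a, b⟩, rfl | ⟨c, d⟩⟩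
          · exact absurd a he
          · refine ⟨Or.inr a, ?_⟩
            rintro (rfl | f | f)
            · exact he a
            · exact b f
            · exact d f
        · rintro ⟨rfl | a, b⟩
          · exact absurd (Or.inl rfl) b
          · exact ⟨⟨a, fun hh => b (Or.inr (Or.inl hh))⟩,
              Or.inr ⟨a, fun hh => b (Or.inr (Or.inr hh))⟩⟩
      rw [e1, e2] at m1
      rw [e3, e4] at m2
      have c1 := h (A ∩ B) ((Finset.inter_subset_left.trans hA).trans (Finset.subset_insert _ _))
      have c2 := h (insert e (A ∪ B))
        (Finset.insert_subset_insert _ (Finset.union_subset hA hB))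
      have p1 : 1 ≤ r₁ (insert e B) := by
        rw [← l1]
        exact h₁.mono (Finset.singleton_subset_iff.2 (Finset.mem_insert_self _ _))
      have p2 : 1 ≤ r₂ (insert e (E' \ B)) := by
        rw [← l2]
        exact h₂.mono (Finset.singleton_subset_iff.2 (Finset.mem_insert_self _ _))
      have hlt3 : (r₁ (insert e B) - 1) + (r₂ (insert e (E' \ B)) - 1) < k - 1 := hlt2
      omega)
    have hk : 1 ≤ k := by omega
    have heI : e ∉ I := fun hh => he (hI hh)
    have p1 : 1 ≤ r₁ (insert e I) := by
      rw [← l1]
      exact h₁.mono (Finset.singleton_subset_iff.2 (Finset.mem_insert_self _ _))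
    have p2 : 1 ≤ r₂ (insert e I) := by
      rw [← l2]
      exact h₂.mono (Finset.singleton_subset_iff.2 (Finset.mem_insert_self _ _))
    have q1 : r₁ (insert e I) - 1 = k - 1 := hr1
    have q2 : r₂ (insert e I) - 1 = k - 1 := hr2
    refine ⟨insert e I, Finset.insert_subset_insert _ hI, ?_, by omega, by omega⟩
    rw [Finset.card_insert_of_notMem heI]
    omega

end Q191.Simul
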