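import Pool.Agent.Q191.Simul.Inter

/-! Simultaneous exponential bases for two sets of the same size. -/

set_option autoImplicit false

open scoped ComplexConjugate InnerProductSpace

namespace Q191.Simul

set_option linter.unusedSectionVars false

variable {G : Type*} [AddCommGroup G] [Fintype G] [DecidableEq G]

/-- the restriction of a character to `E` -/
noncomputable def v (E : Finset G) (χ : AddChar G ℂ) : EuclideanSpace ℂ E :=
  WithLp.toLp 2 fun x => χ x

/-- dimension of the span of the restrictions -/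
noncomputable def rk (E : Finset G) (S : Finset (AddChar G ℂ)) : ℕ :=
  Module.finrank ℂ (Submodule.span ℂ (v E '' (S : Set (AddChar G ℂ))))

open Classical in
theorem rk_rankFn (E : Finset G) : RankFn (rk E) := by
  refine ⟨fun {S T} h => ?_, fun S => ?_, fun S T => ?_⟩
  · exact Submodule.finrank_mono (Submodule.span_mono (Set.image_mono (by exact_mod_cast h)))
  · unfold rk
    have h1 := finrank_span_finset_le_card (R := ℂ) (S.image (v E))
    rw [Set.finrank, Finset.coe_image] at h1
    exact h1.trans Finset.card_image_le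
  · unfold rk
    have h1 := Submodule.finrank_sup_add_finrank_inf_eq
      (Submodule.span ℂ (v E '' (S : Set (AddChar G ℂ))))
      (Submodule.span ℂ (v E '' (T : Set (AddChar G ℂ))))
    have h2 : Submodule.span ℂ (v E '' ((S ∪ T : Finset (AddChar G ℂ)) : Set (AddChar G ℂ))) =
        Submodule.span ℂ (v E '' (S : Set (AddChar G ℂ))) ⊔
        Submodule.span ℂ (v E '' (T : Set (AddChar G ℂ))) := by
      rw [Finset.coe_union, Set.image_union, Submodule.span_union]
    have h3 : Submodule.span ℂ (v E '' ((S ∩ T : Finset (AddChar G ℂ)) : Set (AddChar G ℂ))) ≤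
        Submodule.span ℂ (v E '' (S : Set (AddChar G ℂ))) ⊓
        Submodule.span ℂ (v E '' (T : Set (AddChar G ℂ))) := by
      rw [Finset.coe_inter]
      exact le_inf (Submodule.span_mono (Set.image_mono Set.inter_subset_left))
        (Submodule.span_mono (Set.image_mono Set.inter_subset_right))
    rw [h2]
    have h4 := Submodule.finrank_mono h3
    omega

theorem norm_sq_v (E : Finset G) (χ : AddChar G ℂ) : ‖v E χ‖ ^ 2 = E.card := by
  rw [EuclideanSpace.norm_sq_eq]
  have : ∀ x : E, ‖(v E χ) x‖ ^ 2 = 1 := by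
    intro x
    show ‖χ (x : G)‖ ^ 2 = 1
    rw [AddChar.norm_apply, one_pow]
  rw [Finset.sum_congr rfl fun x _ => this x]
  simp

/-- Parseval's identity for functions supported on `E` -/
theorem parseval (E : Finset G) (w : EuclideanSpace ℂ E) :
    ∑ χ : AddChar G ℂ, ‖⟪w, v E χ⟫_ℂ‖ ^ 2 = Fintype.card G * ‖w‖ ^ 2 := by
  have h1 : ∀ χ : AddChar G ℂ, ((‖⟪w, v E χ⟫_ℂ‖ : ℂ)) ^ 2 =
      ∑ x : E, ∑ y : E, conj (w x) * w y * χ ((x : G) - y) := by
    intro χ
    have h2 : ⟪w, v E χ⟫_ℂ = ∑ x : E, conj (w x) * χ (x : G) := by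
      rw [PiLp.inner_apply]
      apply Finset.sum_congr rfl
      intro x _
      rw [RCLike.inner_apply']
      rfl
    rw [← Complex.mul_conj', h2, map_sum, Finset.sum_mul_sum]
    apply Finset.sum_congr rfl
    intro x _
    apply Finset.sum_congr rfl
    intro y _
    rw [map_mul, Complex.conj_conj, sub_eq_add_neg, AddChar.map_add_eq_mul,
      AddChar.map_neg_eq_conj]
    ring
  have key : (∑ χ : AddChar G ℂ, ((‖⟪w, v E χ⟫_ℂ‖ : ℂ)) ^ 2) =
      (Fintype.card G : ℂ) * (‖w‖ : ℂ) ^ 2 := by
    rw [Finset.sum_congr rfl fun χ _ => h1 χ, Finset.sum_comm]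
    have h3 : ∀ x : E, ∑ χ : AddChar G ℂ, ∑ y : E, conj (w x) * w y * χ ((x : G) - y) =
        (Fintype.card G : ℂ) * (conj (w x) * w x) := by
      intro x
      rw [Finset.sum_comm]
      have h4 : ∀ y : E, ∑ χ : AddChar G ℂ, conj (w x) * w y * χ ((x : G) - y) =
          if y = x then (Fintype.card G : ℂ) * (conj (w x) * w x) else 0 := by
        intro y
        rw [← Finset.mul_sum, AddChar.sum_apply_eq_ite]
        by_cases h : y = x
        · subst h
          rw [sub_self, if_pos rfl, if_pos rfl]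
          ring
        · rw [if_neg h, if_neg, mul_zero]
          intro h5
          exact h (Subtype.ext (sub_eq_zero.1 h5).symm)
      rw [Finset.sum_congr rfl fun y _ => h4 y, Finset.sum_ite_eq' Finset.univ x,
        if_pos (Finset.mem_univ _)]
    rw [Finset.sum_congr rfl fun x _ => h3 x, ← Finset.mul_sum]
    congr 1
    have h6 : (‖w‖ : ℂ) ^ 2 = ((‖w‖ ^ 2 : ℝ) : ℂ) := by push_cast; rfl
    rw [h6, EuclideanSpace.norm_sq_eq]
    push_cast
    apply Finset.sum_congr rfl
    intro x _
    rw [Complex.conj_mul']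
  exact_mod_cast key

theorem rk_lower (E : Finset G) (S : Finset (AddChar G ℂ)) :
    S.card * E.card ≤ Fintype.card G * rk E S := by
  set W := Submodule.span ℂ (v E '' (S : Set (AddChar G ℂ))) with hW
  let b := stdOrthonormalBasis ℂ W
  have h1 : ∀ χ ∈ S, (E.card : ℝ) = ∑ j, ‖⟪(b j : EuclideanSpace ℂ E), v E χ⟫_ℂ‖ ^ 2 := by
    intro χ hχ
    have hmem : v E χ ∈ W := Submodule.subset_span ⟨χ, hχ, rfl⟩
    have := b.sum_sq_norm_inner_right ⟨v E χ, hmem⟩
    have h2 : ‖(⟨v E χ, hmem⟩ : W)‖ ^ 2 = (E.card : ℝ) := by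
      rw [← norm_sq_v E χ]
      rfl
    rw [h2] at this
    rw [← this]
    rfl
  have h3 : (S.card * E.card : ℝ) ≤ Fintype.card G * rk E S := by
    calc (S.card * E.card : ℝ) = ∑ χ ∈ S, (E.card : ℝ) := by
          rw [Finset.sum_const, nsmul_eq_mul]
      _ = ∑ χ ∈ S, ∑ j, ‖⟪(b j : EuclideanSpace ℂ E), v E χ⟫_ℂ‖ ^ 2 :=
          Finset.sum_congr rfl h1
      _ = ∑ j, ∑ χ ∈ S, ‖⟪(b j : EuclideanSpace ℂ E), v E χ⟫_ℂ‖ ^ 2 := Finset.sum_comm
      _ ≤ ∑ j, ∑ χ : AddChar G ℂ, ‖⟪(b j : EuclideanSpace ℂ E), v E χ⟫_ℂ‖ ^ 2 := by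
          apply Finset.sum_le_sum
          intro j _
          exact Finset.sum_le_sum_of_subset_of_nonneg (Finset.subset_univ S)
            (fun _ _ _ => by positivity)
      _ = ∑ j : Fin (Module.finrank ℂ W), (Fintype.card G : ℝ) := by
          apply Finset.sum_congr rfl
          intro j _
          rw [parseval]
          have : ‖(b j : EuclideanSpace ℂ E)‖ = 1 := b.orthonormal.1 j
          rw [this]; ring
      _ = Fintype.card G * rk E S := by
          rw [Finset.sum_const, Finset.card_univ, Fintype.card_fin, nsmul_eq_mul, mul_comm]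
          rfl
  exact_mod_cast h3

/-- a set of characters of size `|E|` whose restrictions to `E` are linearly independent -/
def IsRieszBasis (Λ : Finset (AddChar G ℂ)) (E : Finset G) : Prop :=
  Λ.card = E.card ∧ LinearIndependent ℂ (fun (χ : Λ) (x : E) => (χ : AddChar G ℂ) (x : G))

theorem isRieszBasis_of_rk {Λ : Finset (AddChar G ℂ)} {E : Finset G} (h : Λ.card = E.card)
    (hr : rk E Λ = Λ.card) : IsRieszBasis Λ E := by
  refine ⟨h, ?_⟩
  have h1 : LinearIndependent ℂ (fun χ : Λ => v E (χ : AddChar G ℂ)) := by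
    rw [linearIndependent_iff_card_eq_finrank_span, Set.finrank]
    have h2 : Set.range (fun χ : Λ => v E (χ : AddChar G ℂ)) =
        v E '' (Λ : Set (AddChar G ℂ)) := by
      ext y
      constructor
      · rintro ⟨χ, rfl⟩; exact ⟨χ, χ.2, rfl⟩
      · rintro ⟨χ, hχ, rfl⟩; exact ⟨⟨χ, hχ⟩, rfl⟩
    rw [h2, Fintype.card_coe, ← hr]
    rfl
  exact h1.map' (WithLp.linearEquiv 2 ℂ (E → ℂ)).toLinearMap (LinearEquiv.ker _)

open Classical in
theorem simultaneous (E₁ E₂ : Finset G) (h : E₁.card = E₂.card) :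
    ∃ Λ : Finset (AddChar G ℂ), IsRieszBasis Λ E₁ ∧ IsRieszBasis Λ E₂ := by
  obtain ⟨Λ, -, hc, h1, h2⟩ := intersection (Finset.univ : Finset (AddChar G ℂ)) E₁.card
    (rk E₁) (rk E₂) (rk_rankFn E₁) (rk_rankFn E₂) (by
      intro S _
      have a := rk_lower E₁ S
      have b := rk_lower E₂ (Finset.univ \ S)
      rw [← h] at b
      have hcard : S.card + (Finset.univ \ S).card = Fintype.card G := by
        rw [Finset.card_sdiff_of_subset (Finset.subset_univ S), Finset.card_univ,
          AddChar.card_eq]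
        have := Finset.card_le_univ S
        rw [AddChar.card_eq] at this
        omega
      have hpos : 0 < Fintype.card G := Fintype.card_pos
      have hsum : Fintype.card G * E₁.card ≤
          Fintype.card G * (rk E₁ S + rk E₂ (Finset.univ \ S)) := by
        calc Fintype.card G * E₁.card = S.card * E₁.card + (Finset.univ \ S).card * E₁.card := by
              rw [← hcard]; ring
          _ ≤ _ := by rw [mul_add]; exact Nat.add_le_add a b
      exact Nat.le_of_mul_le_mul_left hsum hpos)
  exact ⟨Λ, isRieszBasis_of_rk hc (h1.trans hc.symm),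
    isRieszBasis_of_rk (hc.trans h) (h2.trans hc.symm)⟩

end Q191.Simul
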